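import Pool.Agent.W544.K3.Defs4
import Pool.Agent.W976.K3.IRR2
import Pool.Agent.W537.DB.Rat

/-!
# K3-END4: endomorphisms commuting with the Lie algebra
-/

set_option autoImplicit false

open Module Finset

namespace Pool.Agent.W515.K3

open Pool.Agent.W544.K3
open Pool.Agent.W565.K3 (opR opR_apply)
open Pool.Agent.W976.K3 (comm_hodgeM lie_memM)

noncomputable section

variable {n N : ℕ}

theorem deligne4 (X : Multi n N) (h : X.HodgeIsDR) : X.Deligne := by
  intro P hP i j
  have hdr := h P hP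
  unfold Multi.DREnd at hdr
  set M := X.D⁻¹ * mC P * X.D with hM
  have h1 : mC P * X.D = X.D * M := by
    rw [hM, Matrix.mul_assoc, Matrix.mul_nonsing_inv_cancel_left _ _
      (isUnit_iff_ne_zero.mpr X.det)]
  have h2 : app P (fun a => X.D a i) = fun a => ∑ l, X.D a l * M l i := by
    funext a
    have := congrFun (congrFun h1 a) i
    rw [Matrix.mul_apply, Matrix.mul_apply] at this
    exact this
  rw [h2]
  have h3 : bil X.B (fun a => ∑ l, X.D a l * M l i) (fun a => X.D a j) =
      ∑ l, M l i * bil X.B (fun a => X.D a l) (fun a => X.D a j) := by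
    unfold bil
    simp only [Finset.sum_mul, Finset.mul_sum]
    calc _ = ∑ a, ∑ l, ∑ b, X.D a l * M l i * (X.B a b : ℂ) * X.D b j :=
          Finset.sum_congr rfl fun a _ => Finset.sum_comm
      _ = ∑ l, ∑ a, ∑ b, X.D a l * M l i * (X.B a b : ℂ) * X.D b j := Finset.sum_comm
      _ = _ := Finset.sum_congr rfl fun l _ => Finset.sum_congr rfl fun a _ =>
          Finset.sum_congr rfl fun b _ => by ring
  rw [h3]
  have h4 : ∀ l, IsAlgebraic ℚ (M l i * bil X.B (fun a => X.D a l) (fun a => X.D a j)) :=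
    fun l => (hdr l i).mul (X.alg l j)
  exact isAlgebraic_iff_isIntegral.mpr (IsIntegral.sum _ fun l _ =>
    isAlgebraic_iff_isIntegral.mp (h4 l))

theorem comm4 (X : Multi n N) (h : X.HodgeIsDR) (P : Matrix (Fin n) (Fin n) ℚ)
    (hP : X.HodgeEnd P) (x : Matrix (Fin n) (Fin n) ℚ) (hx : x ∈ X.lie) : P * x = x * P := by
  ext i j
  have h1 := congrFun (comm_hodgeM X (deligne4 X h) P hP (opR x) (lie_memM X x hx)
    (Pi.single j 1)) i
  rw [opR_apply, opR_apply] at h1
  simp only [opR_apply, Pi.single_apply, mul_ite, mul_one, mul_zero, Finset.sum_ite_eq',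
    Finset.mem_univ, if_true] at h1
  rw [Matrix.mul_apply, Matrix.mul_apply]
  exact_mod_cast h1

/-- the equations of the commutant -/
def eqs (X : Multi n N) : Set (Fin n × Fin n → ℂ) :=
  {b | ∃ x ∈ X.lie, ∃ i j, b = fun p : Fin n × Fin n =>
    (((if p.1 = i then x p.2 j else 0) - (if p.2 = j then x i p.1 else 0) : ℚ) : ℂ)}

theorem eqs_sum (x : Matrix (Fin n) (Fin n) ℚ) (i j : Fin n) (u : Fin n × Fin n → ℂ) :
    ∑ p : Fin n × Fin n, (((if p.1 = i then x p.2 j else 0) -
      (if p.2 = j then x i p.1 else 0) : ℚ) : ℂ) * u p =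
    ((Matrix.of fun a b => u (a, b)) * mC x) i j - (mC x * (Matrix.of fun a b => u (a, b))) i j := by
  rw [Matrix.mul_apply, Matrix.mul_apply, Fintype.sum_prod_type]
  simp only [Rat.cast_sub, sub_mul, Finset.sum_sub_distrib]
  congr 1
  · rw [Finset.sum_eq_single i]
    · refine Finset.sum_congr rfl fun b _ => ?_
      rw [if_pos rfl, mul_comm]
      rfl
    · intro a _ ha
      refine Finset.sum_eq_zero fun b _ => ?_
      rw [if_neg ha, Rat.cast_zero, zero_mul]
    · intro h
      exact absurd (Finset.mem_univ i) h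
  · refine Finset.sum_congr rfl fun a _ => ?_
    rw [Finset.sum_eq_single j]
    · rw [if_pos rfl]
      rfl
    · intro b _ hb
      rw [if_neg hb, Rat.cast_zero, zero_mul]
    · intro h
      exact absurd (Finset.mem_univ j) h

theorem mC_injective {P Q : Matrix (Fin n) (Fin n) ℚ} (h : mC P = mC Q) : P = Q := by
  ext i j
  have := congrFun (congrFun h i) j
  exact Rat.cast_injective this

theorem mC_mul (P Q : Matrix (Fin n) (Fin n) ℚ) : mC (P * Q) = mC P * mC Q := by
  ext i j
  simp [mC, Matrix.mul_apply]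

theorem endHodge4 (hder : S_der4) (X : Multi n N) (h : X.EndIsHodge) : X.EndHodge := by
  intro P hP
  set w : Fin n × Fin n → ℂ := fun p => P p.1 p.2 with hw
  have h1 : ∀ b ∈ eqs X, ∑ p, b p * w p = 0 := by
    rintro b ⟨x, hx, i, j, rfl⟩
    rw [eqs_sum]
    have h2 : (Matrix.of fun a b => w (a, b)) = P := rfl
    rw [h2, sub_eq_zero]
    exact congrFun (congrFun (hP x hx) i) j
  have h2 := Pool.Agent.W537.DB.rational_span (⊥ : IntermediateField ℚ ℂ) (eqs X) (by
    rintro b ⟨x, hx, i, j, rfl⟩ p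
    exact IntermediateField.mem_bot.mpr ⟨_, rfl⟩) h1
  -- the linear map to matrices
  let L : (Fin n × Fin n → ℂ) →ₗ[ℂ] Matrix (Fin n) (Fin n) ℂ :=
    { toFun := fun u => Matrix.of fun a b => u (a, b)
      map_add' := fun _ _ => rfl
      map_smul' := fun _ _ => rfl }
  have h3 : L w = P := rfl
  rw [← h3]
  have h4 := Submodule.mem_map_of_mem (f := L) h2
  rw [Submodule.map_span] at h4
  refine Submodule.span_mono ?_ h4
  rintro _ ⟨u, ⟨hu1, hu2⟩, rfl⟩
  choose q hq using fun p => IntermediateField.mem_bot.mp (hu1 p)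
  refine ⟨Matrix.of fun a b => q (a, b), ?_, ?_⟩
  · apply h
    apply (hder n N X).2
    intro x hx
    apply mC_injective
    rw [mC_mul, mC_mul]
    have h5 : mC (Matrix.of fun a b => q (a, b)) = L u := by
      ext a b
      exact hq (a, b)
    rw [h5]
    ext i j
    have h6 := hu2 _ ⟨x, hx, i, j, rfl⟩
    rw [eqs_sum, sub_eq_zero] at h6
    exact h6
  · ext a b
    exact hq (a, b)

theorem end4 : S_der4 → S_end4 := by
  intro hder n N X h1 h2
  exact ⟨endHodge4 hder X h1, deligne4 X h2, fun P hP x hx => comm4 X h2 P hP x hx⟩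

end

end Pool.Agent.W515.K3
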