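import Pool.Agent.W544.K3.Defs2

/-!
# K3-GOUR: Goursat's lemma for sums of simple Lie algebras so(B)
-/

open Module Finset

namespace Pool.Agent.W515.K3

open Pool.Agent.W544.K3

noncomputable section

variable {N : ℕ} {U : Fin N → Type} [∀ i, AddCommGroup (U i)] [∀ i, Module ℝ (U i)]

/-- the elements of `c` which vanish at the indices in `Z` -/
def KZ (c : Submodule ℝ (∀ i, End ℝ (U i))) (Z : Set (Fin N)) :
    Submodule ℝ (∀ i, End ℝ (U i)) where
  carrier := {y | y ∈ c ∧ ∀ k ∈ Z, y k = 0}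
  zero_mem' := ⟨c.zero_mem, fun _ _ => rfl⟩
  add_mem' := by
    rintro a b ⟨ha, ha'⟩ ⟨hb, hb'⟩
    refine ⟨c.add_mem ha hb, fun k hk => ?_⟩
    rw [Pi.add_apply, ha' k hk, hb' k hk, add_zero]
  smul_mem' := by
    rintro t a ⟨ha, ha'⟩
    refine ⟨c.smul_mem t ha, fun k hk => ?_⟩
    rw [Pi.smul_apply, ha' k hk, smul_zero]

theorem mem_KZ {c : Submodule ℝ (∀ i, End ℝ (U i))} {Z : Set (Fin N)} {y : ∀ i, End ℝ (U i)} :
    y ∈ KZ c Z ↔ y ∈ c ∧ ∀ k ∈ Z, y k = 0 := Iff.rfl

theorem KZ_br {g c : Submodule ℝ (∀ i, End ℝ (U i))}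
    (hid : ∀ y ∈ g, ∀ z ∈ c, (fun i => y i * z i - z i * y i) ∈ c) {Z : Set (Fin N)}
    {w y : ∀ i, End ℝ (U i)} (hw : w ∈ g) (hy : y ∈ KZ c Z) :
    (fun i => w i * y i - y i * w i) ∈ KZ c Z := by
  refine ⟨hid w hw y hy.1, fun k hk => ?_⟩
  show w k * y k - y k * w k = 0
  rw [hy.2 k hk, mul_zero, zero_mul, sub_zero]

section
variable [∀ i, FiniteDimensional ℝ (U i)]

theorem img (hsimp : S_simp) {B : ∀ i, U i →ₗ[ℝ] U i →ₗ[ℝ] ℝ} (hsig : ∀ i, Sig2 (B i))
    (h3 : ∀ i, 3 ≤ finrank ℝ (U i)) (h4 : ∀ i, finrank ℝ (U i) ≠ 4)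
    {g c : Submodule ℝ (∀ i, End ℝ (U i))} (hcg : c ≤ g)
    (hskew : ∀ y ∈ g, ∀ i, Skew (B i) (y i))
    (hid : ∀ y ∈ g, ∀ z ∈ c, (fun i => y i * z i - z i * y i) ∈ c)
    (hsurj : ∀ i, ∀ z, Skew (B i) z → ∃ y ∈ c, y i = z) (Z : Set (Fin N)) (i : Fin N)
    (hne : ∃ y ∈ KZ c Z, y i ≠ 0) (z : End ℝ (U i)) (hz : Skew (B i) z) :
    ∃ y ∈ KZ c Z, y i = z := by
  have h := hsimp (U i) (B i) (hsig i) (h3 i) (h4 i)
    ((KZ c Z).map (LinearMap.proj i : (∀ i, End ℝ (U i)) →ₗ[ℝ] End ℝ (U i))) ?_ ?_ ?_ z hz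
  · obtain ⟨y, hy, hyz⟩ := Submodule.mem_map.mp h
    exact ⟨y, hy, hyz⟩
  · intro y hy
    obtain ⟨y', hy', rfl⟩ := Submodule.mem_map.mp hy
    exact hskew y' (hcg hy'.1) i
  · intro w hw y hy
    obtain ⟨y', hy', rfl⟩ := Submodule.mem_map.mp hy
    obtain ⟨w', hw', rfl⟩ := hsurj i w hw
    exact Submodule.mem_map.mpr ⟨_, KZ_br hid (hcg hw') hy', rfl⟩
  · intro hbot
    obtain ⟨y, hy, hyi⟩ := hne
    apply hyi
    have h5 : (LinearMap.proj i : (∀ i, End ℝ (U i)) →ₗ[ℝ] End ℝ (U i)) y ∈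
        ((KZ c Z).map (LinearMap.proj i : (∀ i, End ℝ (U i)) →ₗ[ℝ] End ℝ (U i))) :=
      Submodule.mem_map_of_mem hy
    rw [hbot] at h5
    exact (Submodule.mem_bot ℝ).mp h5

end

theorem wedge_skew {V : Type} [AddCommGroup V] [Module ℝ V] {B : V →ₗ[ℝ] V →ₗ[ℝ] ℝ}
    (hs : ∀ u v, B u v = B v u) (u v : V) : Skew B (wedge B u v) := by
  intro a b
  simp only [wedge_apply, map_sub, map_smul, LinearMap.sub_apply, LinearMap.smul_apply,
    smul_eq_mul]
  rw [hs a v, hs a u]; ring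

/-- A skew operator commuting with all skew operators is zero. -/
theorem comm_zero (hsimp : S_simp) {V : Type} [AddCommGroup V] [Module ℝ V]
    [FiniteDimensional ℝ V] {B : V →ₗ[ℝ] V →ₗ[ℝ] ℝ} (hsig : Sig2 B) (h3 : 3 ≤ finrank ℝ V)
    (h4 : finrank ℝ V ≠ 4) (a : End ℝ V) (ha : Skew B a)
    (hcomm : ∀ z, Skew B z → z * a = a * z) : a = 0 := by
  by_contra hne
  have hall := hsimp V B hsig h3 h4 (Submodule.span ℝ {a}) (by
      intro y hy
      obtain ⟨t, rfl⟩ := Submodule.mem_span_singleton.mp hy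
      intro u v
      have := ha u v
      simp only [LinearMap.smul_apply, map_smul, smul_eq_mul]
      linear_combination t * this) (by
      intro z hz y hy
      obtain ⟨t, rfl⟩ := Submodule.mem_span_singleton.mp hy
      rw [mul_smul_comm, smul_mul_assoc, hcomm z hz, sub_self]
      exact Submodule.zero_mem _) (by
      intro hbot
      apply hne
      exact (Submodule.mem_bot ℝ).mp (hbot ▸ Submodule.mem_span_singleton_self a))
  obtain ⟨hs, p, q, hp, hq, hpq, -⟩ := hsig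
  -- a vector orthogonal to p and q
  obtain ⟨r, hr, hrp, hrq⟩ : ∃ r : V, r ≠ 0 ∧ B p r = 0 ∧ B q r = 0 := by
    have h5 : ¬ Function.Injective ((B p).prod (B q)) := by
      intro hinj
      have := LinearMap.finrank_le_finrank_of_injective hinj
      simp at this
      omega
    have h6 : LinearMap.ker ((B p).prod (B q)) ≠ ⊥ := fun h => h5 (LinearMap.ker_eq_bot.mp h)
    obtain ⟨r, hr, hr0⟩ := Submodule.exists_mem_ne_zero_of_ne_bot h6
    have hr' : (B p r, B q r) = (0 : ℝ × ℝ) := LinearMap.mem_ker.mp hr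
    exact ⟨r, hr0, congrArg Prod.fst hr', congrArg Prod.snd hr'⟩
  obtain ⟨s, hs1⟩ := Submodule.mem_span_singleton.mp (hall _ (wedge_skew hs p q))
  obtain ⟨t, ht1⟩ := Submodule.mem_span_singleton.mp (hall _ (wedge_skew hs p r))
  have e1 : s • a p = B p p • q := by
    have := congrArg (fun x : End ℝ V => x p) hs1
    simp only [LinearMap.smul_apply, wedge_apply] at this
    rw [this, hs q p, hpq]; simp
  have e2 : t • a p = B p p • r := by
    have := congrArg (fun x : End ℝ V => x p) ht1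
    simp only [LinearMap.smul_apply, wedge_apply] at this
    rw [this, hs r p, hrp]; simp
  -- t * (B p p • q) = s * (B p p • r)
  have e3 : (t * B p p) • q = (s * B p p) • r := by
    rw [mul_smul, mul_smul, ← e1, ← e2, smul_smul, smul_smul, mul_comm]
  have e4 := congrArg (fun v => B q v) e3
  simp only [map_smul, smul_eq_mul, hrq, mul_zero] at e4
  have ht0 : t = 0 := by
    rcases mul_eq_zero.mp e4 with h | h
    · rcases mul_eq_zero.mp h with h | h
      · exact h
      · exact absurd h hp.ne'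
    · exact absurd h hq.ne'
  rw [ht0, zero_smul] at e2
  rcases smul_eq_zero.mp e2.symm with h | h
  · exact absurd h hp.ne'
  · exact hr h

theorem gour (hsimp : S_simp) (hrigid : S_rigid) : S_gour := by
  classical
  intro N U _ _ _ B hsig h3 h4 g c hcg hskew hid hsurj hdiag hind i0
  have himg := img hsimp hsig h3 h4 hcg hskew hid hsurj
  -- a nonzero element at i0
  have hex : ∃ y ∈ c, y i0 ≠ 0 := by
    obtain ⟨hs, p, q, hp, hq, hpq, -⟩ := hsig i0
    obtain ⟨y, hy, hyi⟩ := hsurj i0 _ (wedge_skew hs p q)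
    refine ⟨y, hy, ?_⟩
    rw [hyi]
    intro h0
    have := congrArg (fun x : End ℝ (U i0) => x p) h0
    simp only [wedge_apply, LinearMap.zero_apply] at this
    rw [hs q p, hpq, zero_smul, sub_zero] at this
    rcases smul_eq_zero.mp this with h | h
    · exact hp.ne' h
    · rw [h] at hq; simp at hq
  -- minimal support
  obtain ⟨y0, ⟨hy0, hy0i⟩, hmin⟩ : ∃ y0 : ∀ i, End ℝ (U i), (y0 ∈ c ∧ y0 i0 ≠ 0) ∧
      ∀ y : ∀ i, End ℝ (U i), (y ∈ c ∧ y i0 ≠ 0) →
        (univ.filter (fun j => y0 j ≠ 0)).card ≤ (univ.filter (fun j => y j ≠ 0)).card := by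
    obtain ⟨y, hy⟩ := hex
    have hne : {m : ℕ | ∃ y : ∀ i, End ℝ (U i), (y ∈ c ∧ y i0 ≠ 0) ∧
      (univ.filter (fun j => y j ≠ 0)).card = m}.Nonempty := ⟨_, y, hy, rfl⟩
    obtain ⟨y0, h1, h2⟩ := Nat.sInf_mem hne
    refine ⟨y0, h1, fun y hy => ?_⟩
    rw [h2]
    exact Nat.sInf_le ⟨y, hy, rfl⟩
  have honly : ∀ j, j ≠ i0 → y0 j = 0 := by
    intro j hj
    by_contra hyj
    set Z : Set (Fin N) := {k | y0 k = 0} with hZ
    have hy0Z : y0 ∈ KZ c Z := ⟨hy0, fun k hk => hk⟩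
    -- Claim 1
    have claim1 : ∀ y ∈ KZ c Z, y j = 0 → y i0 = 0 := by
      intro y hy hyj'
      by_contra hyi
      have h5 := hmin y ⟨hy.1, hyi⟩
      have h6 : (univ.filter (fun k => y k ≠ 0)) ⊂ (univ.filter (fun k => y0 k ≠ 0)) := by
        rw [Finset.ssubset_iff_subset_ne]
        constructor
        · intro k hk
          rw [mem_filter] at hk ⊢
          refine ⟨mem_univ _, fun h => hk.2 (hy.2 k h)⟩
        · intro h
          have h7 : j ∈ univ.filter (fun k => y0 k ≠ 0) := mem_filter.mpr ⟨mem_univ _, hyj⟩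
          rw [← h] at h7
          exact (mem_filter.mp h7).2 hyj'
      have h7 := Finset.card_lt_card h6
      omega
    -- Claim 2
    have claim2 : ∀ y ∈ KZ c Z, y i0 = 0 → y j = 0 := by
      intro y hy hyi
      by_contra hyj'
      have hy' : y ∈ KZ c (Z ∪ {i0}) := by
        refine ⟨hy.1, ?_⟩
        rintro k (hk | hk)
        · exact hy.2 k hk
        · rw [Set.mem_singleton_iff] at hk
          subst hk
          exact hyi
      obtain ⟨k, hk, hkj⟩ := himg (Z ∪ {i0}) j ⟨y, hy', hyj'⟩ (y0 j) (hskew y0 (hcg hy0) j)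
      have hkZ : k ∈ KZ c Z := ⟨hk.1, fun l hl => hk.2 l (Or.inl hl)⟩
      have h5 := claim1 (y0 - k) ((KZ c Z).sub_mem hy0Z hkZ) (by
        rw [Pi.sub_apply, hkj, sub_self])
      rw [Pi.sub_apply, hk.2 i0 (Or.inr rfl), sub_zero] at h5
      exact hy0i h5
    have surI := himg Z i0 ⟨y0, hy0Z, hy0i⟩
    have surJ := himg Z j ⟨y0, hy0Z, hyj⟩
    -- the graph
    let π : (∀ i, End ℝ (U i)) →ₗ[ℝ] End ℝ (U i0) × End ℝ (U j) :=
      (LinearMap.proj i0).prod (LinearMap.proj j)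
    obtain ⟨Ψ, hΨiso, hΨ⟩ := hrigid (U i0) (U j) (B i0) (B j) (hsig i0) (hsig j) (h3 i0) (h4 i0)
      (h3 j) (h4 j) ((KZ c Z).map π) (by
        intro p hp
        obtain ⟨y, hy, rfl⟩ := Submodule.mem_map.mp hp
        exact ⟨hskew y (hcg hy.1) i0, hskew y (hcg hy.1) j⟩) (by
        intro p hp q hq
        obtain ⟨y, hy, rfl⟩ := Submodule.mem_map.mp hp
        obtain ⟨z, hz, rfl⟩ := Submodule.mem_map.mp hq
        exact Submodule.mem_map.mpr ⟨_, KZ_br hid (hcg hy.1) hz, rfl⟩) (by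
        intro y hy
        obtain ⟨y', hy', rfl⟩ := surI y hy
        exact ⟨y' j, Submodule.mem_map.mpr ⟨y', hy', rfl⟩⟩) (by
        intro y hy
        obtain ⟨y', hy', rfl⟩ := surJ y hy
        exact ⟨y' i0, Submodule.mem_map.mpr ⟨y', hy', rfl⟩⟩) (by
        intro p hp
        obtain ⟨y, hy, rfl⟩ := Submodule.mem_map.mp hp
        exact claim2 y hy) (by
        intro p hp
        obtain ⟨y, hy, rfl⟩ := Submodule.mem_map.mp hp
        exact claim1 y hy) (by
        intro p hp hd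
        obtain ⟨y, hy, rfl⟩ := Submodule.mem_map.mp hp
        have hd' : Diag (y i0) := hd
        obtain ⟨x, hx, hxd⟩ := hdiag y hy.1
        have hxZ : x ∈ KZ c Z := by
          refine ⟨hx, fun k hk => ?_⟩
          have h5 : y k = 0 := hy.2 k hk
          rw [(hxd k).2 (by
            rw [h5, Diag, eq_top_iff]
            intro v _
            refine (le_iSup (fun μ : ℝ => End.eigenspace (0 : End ℝ (U k)) μ) 0) ?_
            rw [End.mem_eigenspace_iff]; simp), h5]
        have h5 := claim2 (x - y) ((KZ c Z).sub_mem hxZ hy) (by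
          rw [Pi.sub_apply, (hxd i0).2 hd', sub_self])
        rw [Pi.sub_apply, sub_eq_zero] at h5
        show Diag (y j)
        rw [← h5]
        exact (hxd j).1)
    have hΨ' : ∀ y ∈ KZ c Z, ∀ u, y j (Ψ u) = Ψ (y i0 u) := fun y hy u =>
      hΨ _ (Submodule.mem_map_of_mem hy) u
    -- Ψ intertwines g
    have hint : ∀ w ∈ g, ∀ u, w j (Ψ u) = Ψ (w i0 u) := by
      intro w hw
      have h5 := comm_zero hsimp (hsig i0) (h3 i0) (h4 i0)
        ((Ψ.symm : U j →ₗ[ℝ] U i0) ∘ₗ (w j) ∘ₗ (Ψ : U i0 →ₗ[ℝ] U j) - w i0) (by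
          intro u v
          have h6 := hskew w hw i0 u v
          have h7 := hskew w hw j (Ψ u) (Ψ v)
          have h8 : B j (w j (Ψ u)) (Ψ v) = B i0 (Ψ.symm (w j (Ψ u))) v := by
            rw [← hΨiso, Ψ.apply_symm_apply]
          have h9 : B j (Ψ u) (w j (Ψ v)) = B i0 u (Ψ.symm (w j (Ψ v))) := by
            rw [← hΨiso, Ψ.apply_symm_apply]
          rw [h8, h9] at h7
          simp only [LinearMap.sub_apply, LinearMap.comp_apply, LinearEquiv.coe_coe, map_sub]
          linarith) (by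
          intro z hz
          obtain ⟨y, hy, rfl⟩ := surI z hz
          have h6 := hΨ' _ (KZ_br hid hw hy)
          ext u
          have h7 := h6 u
          simp only [LinearMap.sub_apply, Module.End.mul_apply, map_sub] at h7
          have h8 := hΨ' y hy (Ψ.symm (w j (Ψ u)))
          rw [Ψ.apply_symm_apply] at h8
          rw [hΨ' y hy u, h8] at h7
          apply Ψ.injective
          simp only [LinearMap.sub_apply, Module.End.mul_apply, map_sub, LinearMap.comp_apply,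
            LinearEquiv.coe_coe, Ψ.apply_symm_apply]
          rw [sub_eq_sub_iff_add_eq_add] at h7 ⊢
          rw [add_comm, ← h7])
      intro u
      have h6 := congrArg (fun f : End ℝ (U i0) => Ψ (f u)) h5
      simp only [LinearMap.sub_apply, LinearMap.comp_apply, LinearEquiv.coe_coe, map_sub,
        Ψ.apply_symm_apply, LinearMap.zero_apply, map_zero] at h6
      exact sub_eq_zero.mp h6
    have h5 := hind i0 j (Ne.symm hj) (Ψ : U i0 →ₗ[ℝ] U j) (fun y hy u => hint y hy u)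
    have h6 : 0 < finrank ℝ (U i0) := by have := h3 i0; omega
    have h7 : Nontrivial (U i0) := Module.nontrivial_of_finrank_pos h6
    obtain ⟨u, hu⟩ := exists_ne (0 : U i0)
    apply hu
    apply Ψ.injective
    have := congrArg (fun f : U i0 →ₗ[ℝ] U j => f u) h5
    simpa using this
  intro z hz
  obtain ⟨y, hy, hyz⟩ := himg {k | k ≠ i0} i0 ⟨y0, ⟨hy0, fun k hk => honly k hk⟩, hy0i⟩ z hz
  exact ⟨y, hy.1, hyz, fun k hk => hy.2 k hk⟩

end

end Pool.Agent.W515.K3
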